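import Pool.Agent.H70.TGS.All

/-!
# De Mol's tag system S₂: halting in every family, cycles, and the complexity of the halting set
-/

set_option autoImplicit false

open List

namespace Pool.Agent.H70.Kept.StopCyc

open Pool.Agent.H68.TG Pool.Agent.H70.TGS

/-- (1) For all words `p`, `v`, for `u = 0` and `u = 12`, and for every residue class modulo `q`, at
least `N^(1/7)` of the `n < N` in the class are such that `S₂` stops on `p u^n v` (`N` large).
(2) The words `cyw q` (`q` a finite sequence of bits of length `m`) of length `16 m + 9` lie on cycles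
of `S₂` of length dividing `60 m + 40`, on which it never stops and which contain no word
`0^x (12)^y` or `2 (12)^y`; there are at least `2^m / (60 m + 40)` such cycles.
(3) For at least `N^(1/55)` of the `n < N` (`N` large) the computation on `0^n 12 0^6` never stops
and never reaches a word `0^x (12)^y` or `2 (12)^y`.
(4) The set of the words on which `S₂` stops is not a Boolean combination of context-free
languages. -/
theorem all_parts :
    (∀ u : ℕ → List (Fin 3), (u = fun n => replicate n 0) ∨ u = dd →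
      ∀ (p v : List (Fin 3)) (a q : ℕ), 1 ≤ q → ∃ N0 : ℕ, ∀ N ≥ N0,
        (N : ℝ) ^ (1 / 7 : ℝ) ≤
          (({n : ℕ | n < N ∧ n ≡ a [MOD q] ∧ Stops (p ++ u n ++ v)}.ncard : ℕ) : ℝ)) ∧
    (∀ q : List Bool, (cyw q).length = 16 * q.length + 9 ∧
      step^[60 * q.length + 40] (cyw q) = cyw q ∧
      ∀ k, 2 ≤ (step^[k] (cyw q)).length ∧ ¬ Two (step^[k] (cyw q))) ∧
    (∀ m : ℕ, ({O : Set (List (Fin 3)) | ∃ w : List (Fin 3), w.length = 16 * m + 9 ∧
        step^[60 * m + 40] w = w ∧ (∀ k, 2 ≤ (step^[k] w).length ∧ ¬ Two (step^[k] w)) ∧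
        O = Set.range fun k => step^[k] w}).Finite ∧
      2 ^ m ≤ (60 * m + 40) * ({O : Set (List (Fin 3)) | ∃ w : List (Fin 3),
        w.length = 16 * m + 9 ∧ step^[60 * m + 40] w = w ∧
        (∀ k, 2 ≤ (step^[k] w).length ∧ ¬ Two (step^[k] w)) ∧
        O = Set.range fun k => step^[k] w}).ncard) ∧
    (∃ N0 : ℕ, ∀ N ≥ N0, (N : ℝ) ^ (1 / 55 : ℝ) ≤ (({n : ℕ | n < N ∧
      ∀ k, 2 ≤ (step^[k] (replicate n 0 ++ [1, 2] ++ replicate 6 0)).length ∧
        ¬ Two (step^[k] (replicate n 0 ++ [1, 2] ++ replicate 6 0))}.ncard : ℕ) : ℝ)) ∧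
    ¬ BCF {w : List (Fin 3) | Stops w} := by
  obtain ⟨h1, h2, h3, h4⟩ := y_MA2
  refine ⟨?_, ?_, fun m => y_NCY m, h3, h4⟩
  · rintro u (rfl | rfl) p v a q hq
    · obtain ⟨N0, hN0⟩ := h1 p v a q hq
      exact ⟨N0, fun N hN => (hN0 N hN).1⟩
    · obtain ⟨N0, hN0⟩ := h1 p v a q hq
      exact ⟨N0, fun N hN => (hN0 N hN).2⟩
  · intro q
    refine ⟨?_, (h2 q).1, (h2 q).2⟩
    have h : (q.flatMap blk).length = 16 * q.length := by
      induction q with
      | nil => rfl
      | cons c q ih =>
        have hb : (blk c).length = 16 := by cases c <;> rfl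
        rw [flatMap_cons, length_append, ih, hb, length_cons]
        ring
    unfold cyw
    rw [length_append, h]
    rfl

end Pool.Agent.H70.Kept.StopCyc
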